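import Pool.Agent.K1H25.HF.Stm

/-!
Banach-Schauder iteration: `NearOpen` implies `OpenOnto`.
-/

namespace K1H25.HF

open Finset hiding mem_antidiagonal antidiagonal
open HasAntidiagonal WAlg

namespace SJ

section gen
variable {Γ : Type} [AddMonoid Γ] [HasAntidiagonal Γ] {D : WData Γ}

theorem nrm_le_of_wt (i j : D.I) (h : ∀ g, D.wt i g ≤ D.wt j g) (a : WAlg D) : nrm i a ≤ nrm j a :=
  Summable.tsum_le_tsum (fun g => mul_le_mul_of_nonneg_left (h g) (norm_nonneg _)) (a.summ i) (a.summ j)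

theorem nrm_sum (i : D.I) {ι : Type} (s : Finset ι) (f : ι → WAlg D) :
    nrm i (∑ k ∈ s, f k) ≤ ∑ k ∈ s, nrm i (f k) := by
  classical
  induction s using Finset.induction_on with
  | empty => simp [nrm_zero]
  | insert a s ha ih =>
    rw [Finset.sum_insert ha, Finset.sum_insert ha]
    exact (nrm_add i _ _).trans (add_le_add le_rfl ih)

theorem cf_sum {ι : Type} (s : Finset ι) (f : ι → WAlg D) (g : Γ) :
    (∑ k ∈ s, f k).cf g = ∑ k ∈ s, (f k).cf g := by
  classical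
  induction s using Finset.induction_on with
  | empty => simp
  | insert a s ha ih =>
    rw [Finset.sum_insert ha, Finset.sum_insert ha, cf_add, ih]

theorem eq_zero_of_nrm (i : D.I) (a : WAlg D) (h : nrm i a = 0) : a = 0 := by
  ext g
  have h1 := le_nrm i a g
  rw [h] at h1
  have h2 : ‖a.cf g‖ ≤ 0 := by
    by_contra h3
    push Not at h3
    exact absurd h1 (not_le.2 (mul_pos h3 (D.wt_pos i g)))
  rw [cf_zero]
  exact norm_le_zero_iff.1 h2

theorem trunc (i : D.I) (a : WAlg D) (δ : ℝ) (hδ : 0 < δ) :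
    ∃ S : Finset Γ, nrm i (a - ∑ k ∈ S, a.cf k • mono D k) ≤ δ := by
  classical
  have h1 := (a.summ i).hasSum
  have h2 : ∀ᶠ S : Finset Γ in Filter.atTop, dist (∑ g ∈ S, ‖a.cf g‖ * D.wt i g) (nrm i a) < δ :=
    (Metric.tendsto_nhds.1 h1) δ hδ
  obtain ⟨S, hS⟩ := h2.exists
  refine ⟨S, ?_⟩
  have h3 := (a.summ i).sum_add_tsum_compl (s := S)
  have h4 : nrm i (a - ∑ k ∈ S, a.cf k • mono D k) = ∑' b : ↑((S : Set Γ)ᶜ), ‖a.cf b‖ * D.wt i b := by
    unfold nrm
    rw [tsum_subtype ((S : Set Γ)ᶜ) (fun b => ‖a.cf b‖ * D.wt i b)]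
    refine tsum_congr fun g => ?_
    rw [cf_sub, cf_sum]
    by_cases hg : g ∈ S
    · rw [Set.indicator_of_notMem (by simpa using hg)]
      rw [Finset.sum_eq_single g]
      · rw [cf_smul, cf_mono_self]; simp
      · intro b _ hb
        rw [cf_smul, cf_mono_ne (Ne.symm hb), mul_zero]
      · intro hh; exact absurd hg hh
    · rw [Set.indicator_of_mem (by simpa using hg)]
      rw [Finset.sum_eq_zero]
      · rw [sub_zero]
      · intro b hb
        have : g ≠ b := by rintro rfl; exact hg hb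
        rw [cf_smul, cf_mono_ne this, mul_zero]
  rw [h4]
  have h5 : ∑' b : ↑((S : Set Γ)ᶜ), ‖a.cf b‖ * D.wt i b = nrm i a - ∑ g ∈ S, ‖a.cf g‖ * D.wt i g := by
    have : nrm i a = ∑' g, ‖a.cf g‖ * D.wt i g := rfl
    rw [this, ← h3]; ring
  rw [h5]
  rw [Real.dist_eq, abs_lt] at hS
  linarith [hS.1]

end gen

variable {n N : ℕ} {q : ℂ} {hq : ‖q‖ = 1} {r : ℝ}

theorem wt_ball (ρ : (ballData n q hq r).I) (k : MI n) :
    (ballData n q hq r).wt ρ k = wq k * ρ.1 ^ tot k := rfl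

theorem wt_free (R : (freeData N).I) (w : Words N) : (freeData N).wt R w = R.1 ^ wlen w := rfl

theorem ball_mono (ρ ρ' : (ballData n q hq r).I) (h : ρ.1 ≤ ρ'.1) (a : QBall n q hq r) :
    nrm ρ a ≤ nrm ρ' a := by
  refine nrm_le_of_wt ρ ρ' (fun g => ?_) a
  rw [wt_ball, wt_ball]
  exact mul_le_mul_of_nonneg_left (pow_le_pow_left₀ ρ.2.1.le h _) (wq_pos g).le

theorem free_mono (R R' : (freeData N).I) (h : R.1 ≤ R'.1) (a : FreeF N) :
    nrm R a ≤ nrm R' a := by
  refine nrm_le_of_wt R R' (fun g => ?_) a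
  rw [wt_free, wt_free]
  exact pow_le_pow_left₀ R.2.le h _

/-- near openness for all elements -/
theorem near_all (Φ : FreeF N →ₐ[ℂ] QBall n q hq r) (ho : NearOpen Φ) (R : (freeData N).I) :
    ∃ (ρ : (ballData n q hq r).I) (C : ℝ), 0 ≤ C ∧
    ∀ (a : QBall n q hq r) (ρ' : (ballData n q hq r).I) (δ : ℝ), 0 < δ →
      ∃ F : FreeF N, nrm R F ≤ C * nrm ρ a ∧ nrm ρ' (a - Φ F) ≤ δ := by
  classical
  obtain ⟨ρ, C, hC, H⟩ := ho R
  refine ⟨ρ, C, hC, fun a ρ' δ hδ => ?_⟩
  obtain ⟨S, hS⟩ := trunc ρ' a (δ / 2) (by linarith)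
  set σ : ℝ := ∑ k ∈ S, ‖a.cf k‖ with hσ
  have hσ0 : 0 ≤ σ := Finset.sum_nonneg fun _ _ => norm_nonneg _
  have hδ' : 0 < δ / (2 * (1 + σ)) := by positivity
  choose G hG1 hG2 using fun k => H k ρ' (δ / (2 * (1 + σ))) hδ'
  refine ⟨∑ k ∈ S, a.cf k • G k, ?_, ?_⟩
  · calc nrm R (∑ k ∈ S, a.cf k • G k) ≤ ∑ k ∈ S, nrm R (a.cf k • G k) := nrm_sum R S _
      _ ≤ ∑ k ∈ S, C * (‖a.cf k‖ * (ballData n q hq r).wt ρ k) := by
          refine Finset.sum_le_sum fun k _ => ?_
          rw [nrm_smul]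
          have := hG1 k
          rw [nrm_mono] at this
          calc ‖a.cf k‖ * nrm R (G k) ≤ ‖a.cf k‖ * (C * (ballData n q hq r).wt ρ k) :=
                mul_le_mul_of_nonneg_left this (norm_nonneg _)
            _ = _ := by ring
      _ = C * ∑ k ∈ S, ‖a.cf k‖ * (ballData n q hq r).wt ρ k := by rw [Finset.mul_sum]
      _ ≤ C * nrm ρ a := by
          refine mul_le_mul_of_nonneg_left ?_ hC
          exact (a.summ ρ).sum_le_tsum S
            (fun g _ => mul_nonneg (norm_nonneg _) ((ballData n q hq r).wt_pos ρ g).le)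
  · have e1 : a - Φ (∑ k ∈ S, a.cf k • G k)
        = (a - ∑ k ∈ S, a.cf k • mono (ballData n q hq r) k)
          + ∑ k ∈ S, a.cf k • (mono (ballData n q hq r) k - Φ (G k)) := by
      rw [map_sum]
      simp only [map_smul, smul_sub]
      rw [Finset.sum_sub_distrib]
      abel
    rw [e1]
    refine (nrm_add _ _ _).trans ?_
    have e2 : nrm ρ' (∑ k ∈ S, a.cf k • (mono (ballData n q hq r) k - Φ (G k))) ≤ δ / 2 := by
      calc nrm ρ' (∑ k ∈ S, a.cf k • (mono (ballData n q hq r) k - Φ (G k)))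
          ≤ ∑ k ∈ S, nrm ρ' (a.cf k • (mono (ballData n q hq r) k - Φ (G k))) := nrm_sum _ _ _
        _ ≤ ∑ k ∈ S, ‖a.cf k‖ * (δ / (2 * (1 + σ))) := by
            refine Finset.sum_le_sum fun k _ => ?_
            rw [nrm_smul]
            exact mul_le_mul_of_nonneg_left (hG2 k) (norm_nonneg _)
        _ = σ * (δ / (2 * (1 + σ))) := by rw [hσ, Finset.sum_mul]
        _ ≤ δ / 2 := by
            rw [← mul_div_assoc, div_le_div_iff₀ (by positivity) (by norm_num)]
            nlinarith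
    linarith

end SJ

open SJ in
theorem t_SURJ (hcompl : S_COMPL) : S_SURJ := by
  classical
  intro n N q hq r Φ hr hc ho R
  have hR : ∀ i : ℕ, 0 < R.1 + i := fun i => add_pos_of_pos_of_nonneg R.2 (Nat.cast_nonneg _)
  set Ri : ℕ → (freeData N).I := fun i => ⟨R.1 + i, hR i⟩ with hRi
  choose ρ C hC H using fun i => near_all Φ ho (Ri i)
  have hh : 0 < r / 2 ∧ r / 2 < r := ⟨by linarith, by linarith⟩
  set ρh : (ballData n q hq r).I := ⟨r / 2, hh⟩ with hρh
  set s : ℕ → (ballData n q hq r).I := fun i => ⟨max (r / 2) (ρ i).1,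
    lt_of_lt_of_le hh.1 (le_max_left _ _), max_lt hh.2 (ρ i).2.2⟩ with hs
  refine ⟨ρ 0, 2 * (C 0 + 1), by linarith [hC 0], fun a => ?_⟩
  set ε : ℝ := nrm (ρ 0) a with hε
  have hε0 : 0 ≤ ε := nrm_nonneg _ _
  rcases hε0.eq_or_lt with h0 | hpos
  · have : a = 0 := eq_zero_of_nrm (ρ 0) a (by rw [← hε]; exact h0.symm)
    refine ⟨0, by rw [map_zero, this], ?_⟩
    rw [nrm_zero, ← h0, mul_zero]
  -- the tolerances
  set δ : ℕ → ℝ := fun i => (1 / 2) ^ i * min 1 ε / (1 + C i) with hδdef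
  have hδpos : ∀ i, 0 < δ i := fun i => by
    have := hC i
    have : 0 < min 1 ε := lt_min one_pos hpos
    simp only [hδdef]
    positivity
  have hδ1 : ∀ i, δ i ≤ (1 / 2) ^ i := fun i => by
    have h1 := hC i
    simp only [hδdef]
    rw [div_le_iff₀ (by linarith)]
    have h2 : min 1 ε ≤ 1 := min_le_left _ _
    have h3 : (0 : ℝ) < (1 / 2) ^ i := by positivity
    calc (1 / 2 : ℝ) ^ i * min 1 ε ≤ (1 / 2) ^ i * 1 := by gcongr
      _ ≤ (1 / 2) ^ i * (1 + C i) := by gcongr; linarith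
  have hδ2 : ∀ i, C i * δ i ≤ (1 / 2) ^ i * ε := fun i => by
    have h1 := hC i
    simp only [hδdef]
    rw [mul_div_assoc', div_le_iff₀ (by linarith)]
    have h2 : min 1 ε ≤ ε := min_le_right _ _
    have h3 : (0 : ℝ) < (1 / 2) ^ i := by positivity
    have h4 : 0 ≤ min 1 ε := (lt_min one_pos hpos).le
    calc C i * ((1 / 2 : ℝ) ^ i * min 1 ε) ≤ (1 + C i) * ((1 / 2) ^ i * ε) := by
          gcongr; linarith
      _ = _ := by ring
  choose step hstep1 hstep2 using fun (i : ℕ) (b : QBall n q hq r) => H i b (s (i + 1)) (δ (i + 1)) (hδpos _)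
  -- the remainders
  obtain ⟨rem, hrem0, hremS⟩ : ∃ rem : ℕ → QBall n q hq r, rem 0 = a ∧
      ∀ i, rem (i + 1) = rem i - Φ (step i (rem i)) :=
    ⟨fun i => Nat.rec a (fun j b => b - Φ (step j b)) i, rfl, fun i => rfl⟩
  set F : ℕ → FreeF N := fun i => step i (rem i) with hF
  have hremsum : ∀ J, rem J = a - Φ (∑ j ∈ Finset.range J, F j) := by
    intro J
    induction J with
    | zero => simp [hrem0]
    | succ J ih =>
      have hFJ : step J (rem J) = F J := rfl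
      rw [hremS, hFJ, Finset.sum_range_succ, map_add, ih, sub_sub]
  have hρs : ∀ i, (ρ i).1 ≤ (s i).1 := fun i => le_max_right _ _
  have hhs : ∀ i, ρh.1 ≤ (s i).1 := fun i => le_max_left _ _
  have hrb : ∀ i, nrm (s (i + 1)) (rem (i + 1)) ≤ δ (i + 1) := fun i => by
    rw [hremS]; exact hstep2 i (rem i)
  have hFb : ∀ i, nrm (Ri i) (F i) ≤ (C 0 + 1) * ε * (1 / 2) ^ i := by
    intro i
    rcases i with _ | i
    · have h1 := hstep1 0 (rem 0)
      rw [hrem0] at h1
      simp only [hF, hrem0, pow_zero, mul_one]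
      refine h1.trans ?_
      rw [← hε]
      nlinarith
    · have h1 := hstep1 (i + 1) (rem (i + 1))
      have h2 : nrm (ρ (i + 1)) (rem (i + 1)) ≤ δ (i + 1) :=
        (ball_mono _ _ (hρs _) _).trans (hrb i)
      calc nrm (Ri (i + 1)) (F (i + 1)) ≤ C (i + 1) * nrm (ρ (i + 1)) (rem (i + 1)) := h1
        _ ≤ C (i + 1) * δ (i + 1) := mul_le_mul_of_nonneg_left h2 (hC _)
        _ ≤ (1 / 2) ^ (i + 1) * ε := hδ2 _
        _ = 1 * ε * (1 / 2) ^ (i + 1) := by ring
        _ ≤ (C 0 + 1) * ε * (1 / 2) ^ (i + 1) := by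
            gcongr
            linarith [hC 0]
  have hgeo : Summable fun i : ℕ => (C 0 + 1) * ε * (1 / 2 : ℝ) ^ i :=
    (summable_geometric_of_lt_one (by norm_num) (by norm_num)).mul_left _
  have hFs : ∀ R' : (freeData N).I, Summable fun j => nrm R' (F j) := by
    intro R'
    refine Summable.of_norm_bounded_eventually_nat hgeo ?_
    filter_upwards [Filter.eventually_ge_atTop ⌈R'.1⌉₊] with i hi
    rw [Real.norm_eq_abs, abs_of_nonneg (nrm_nonneg _ _)]
    refine (free_mono R' (Ri i) ?_ _).trans (hFb i)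
    have h1 : R'.1 ≤ (i : ℝ) := (Nat.le_ceil _).trans (by exact_mod_cast hi)
    simp only [hRi]
    linarith [R.2]
  obtain ⟨G, hG⟩ := hcompl (Words N) (freeData N) F hFs
  refine ⟨G, ?_, ?_⟩
  · -- Φ G = a
    obtain ⟨R', C', hC', hcon⟩ := hc ρh
    have h1 : ∀ J, nrm ρh (a - Φ G) ≤ (1 / 2) ^ (J + 1) + C' * ∑' j, nrm R' (F (j + (J + 1))) := by
      intro J
      have e1 : a - Φ G = rem (J + 1) - Φ (G - ∑ j ∈ Finset.range (J + 1), F j) := by
        rw [hremsum (J + 1), map_sub]; abel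
      rw [e1]
      refine (nrm_sub _ _ _).trans (add_le_add ?_ ?_)
      · exact ((ball_mono _ _ (hhs _) _).trans (hrb J)).trans (hδ1 _)
      · exact (hcon _).trans (mul_le_mul_of_nonneg_left (hG R' _) hC')
    have h2 : Filter.Tendsto (fun J : ℕ => (1 / 2 : ℝ) ^ (J + 1) + C' * ∑' j, nrm R' (F (j + (J + 1))))
        Filter.atTop (nhds (0 + C' * 0)) := by
      refine Filter.Tendsto.add ?_ (Filter.Tendsto.const_mul _ ?_)
      · exact (tendsto_pow_atTop_nhds_zero_of_lt_one (by norm_num) (by norm_num)).comp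
          (Filter.tendsto_add_atTop_nat 1)
      · exact (tendsto_sum_nat_add fun j => nrm R' (F j)).comp (Filter.tendsto_add_atTop_nat 1)
    have h3 : nrm ρh (a - Φ G) ≤ 0 + C' * 0 := ge_of_tendsto' h2 h1
    have h4 : a - Φ G = 0 := eq_zero_of_nrm ρh _ (le_antisymm (by simpa using h3) (nrm_nonneg _ _))
    exact (sub_eq_zero.1 h4).symm
  · have h1 := hG R 0
    simp only [Finset.range_zero, Finset.sum_empty, sub_zero, add_zero] at h1
    refine h1.trans ?_
    have h2 : ∀ j, nrm R (F j) ≤ (C 0 + 1) * ε * (1 / 2 : ℝ) ^ j := fun j => by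
      refine (free_mono R (Ri j) ?_ _).trans (hFb j)
      simp only [hRi]
      have : (0 : ℝ) ≤ j := Nat.cast_nonneg _
      linarith
    calc ∑' j, nrm R (F j) ≤ ∑' j : ℕ, (C 0 + 1) * ε * (1 / 2 : ℝ) ^ j :=
          Summable.tsum_le_tsum h2 (hFs R) hgeo
      _ = (C 0 + 1) * ε * 2 := by
          rw [tsum_mul_left, tsum_geometric_of_lt_one (by norm_num) (by norm_num)]; norm_num
      _ = 2 * (C 0 + 1) * ε := by ring

end K1H25.HF
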